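import Pool.Agent.Lib.MP_5ceaf9_gt.TDefe
import Pool.Agent.Lib.MP_5ceaf9_gt.Tri.Fin

/-! Closed smooth four-manifolds that are smoothly h-cobordant but not smoothly s-cobordant: every
smooth h-cobordism between them has a triangulation with the first end as a subcomplex; in every
such triangulation the relative chain complex of the universal cover is contractible and the
Whitehead torsion is nonzero. -/

namespace Pool.Agent.Results.MP_5ceaf9_gt.HNotSCobTri

open Pool.Agent.Lib.MP_5ceaf9_gt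

theorem result : ∃ A B : Closed4, ConnectedSpace A.M ∧ Nonempty (HCob A B) ∧
    ∀ h : HCob A B,
      (∃ (K L : SC) (t : L.space ≃ₜ h.W), K.faces ⊆ L.faces ∧
        ∀ x, t x ∈ Set.range h.i ↔ (x : ℕ → ℝ) ∈ K.space) ∧
      (∀ (K L : SC) (t : L.space ≃ₜ h.W), K.faces ⊆ L.faces →
        (∀ x, t x ∈ Set.range h.i ↔ (x : ℕ → ℝ) ∈ K.space) → ∃ x0 c, EdgeLoops L x0 c ∧
        (∃ s, IsContr (fun σ : ↥(L.faces \ K.faces) => σ.1.card)
          (Matrix.of fun σ ρ => bdM c σ.1 ρ.1) s) ∧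
        Nonempty ({σ : ↥(L.faces \ K.faces) // σ.1.card % 2 = 0} ≃
          {σ : ↥(L.faces \ K.faces) // σ.1.card % 2 = 1})) ∧ ¬ h.IsSCob :=
  let ⟨A, B, h1, h2, h3⟩ := main2
  ⟨A, B, h1, h2, fun h =>
    ⟨Tri.hcob_tri h, fun _ _ t k1 k2 => hcob_defined h1 h t k1 k2, h3 h⟩⟩

end Pool.Agent.Results.MP_5ceaf9_gt.HNotSCobTri
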