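import Pool.Agent.Lib.MP_5ceaf9_gt.NSim

/-! Closed smooth four-manifolds that are smoothly h-cobordant but not simple homotopy
equivalent. -/

namespace Pool.Agent.Results.MP_5ceaf9_gt.NotSimple

open Pool.Agent.Lib.MP_5ceaf9_gt

theorem result : ∃ A B : Closed4, ConnectedSpace A.M ∧ Nonempty (HCob A B) ∧ ∃ K L : SC,
    Nonempty (K.space ≃ₜ A.M) ∧ Nonempty (L.space ≃ₜ B.M) ∧
      ¬ Relation.EqvGen (fun P Q : SC => Expands P Q ∨ Nonempty (P.space ≃ₜ Q.space)) K L :=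
  not_simple

end Pool.Agent.Results.MP_5ceaf9_gt.NotSimple
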